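import Pool.Agent.Helper96.FR.Rge3

/-!
# Project TH (MP_0f6f3f_an): the groups `SL(n, ℍ)` and `PSL(n, ℍ)`

`SLH n`: the group `SL(n, ℍ)`, the matrices `g` of `SL(2n, ℂ)` commuting with the quaternionic structure `v ↦ J v̄`, `J = (0, -1; 1, 0)`, that is with `g J = J ḡ`.
`PSLH n`: the quotient of `SLH n` by its centre.
-/

set_option autoImplicit false
set_option linter.unusedSectionVars false

open Filter Topology Matrix

namespace Pool.Agent.Helper96.HN

/-- `SL(n, ℍ)`: the matrices `g` of `SL(2n, ℂ)` with `g J = J ḡ`, where `J = (0, -1; 1, 0)` and `ḡ` is the entrywise complex conjugate: the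
matrices of determinant one commuting with the quaternionic structure `v ↦ J v̄` of `ℂ²ⁿ`. -/
def SLH (n : ℕ) : Subgroup (SpecialLinearGroup (Fin n ⊕ Fin n) ℂ) where
  carrier := {g | g.1 * J (Fin n) ℂ = J (Fin n) ℂ * g.1.map (starRingEnd ℂ)}
  one_mem' := by
    show (1 : Matrix (Fin n ⊕ Fin n) (Fin n ⊕ Fin n) ℂ) * _ = _ * Matrix.map (1 : Matrix (Fin n ⊕ Fin n) (Fin n ⊕ Fin n) ℂ) _
    rw [Matrix.map_one _ (map_zero _) (map_one _), Matrix.one_mul, Matrix.mul_one]
  mul_mem' := by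
    intro a b ha hb
    show (a.1 * b.1) * _ = _ * (a.1 * b.1).map _
    have ha' : a.1 * J (Fin n) ℂ = J (Fin n) ℂ * a.1.map (starRingEnd ℂ) := ha
    have hb' : b.1 * J (Fin n) ℂ = J (Fin n) ℂ * b.1.map (starRingEnd ℂ) := hb
    rw [Matrix.map_mul, Matrix.mul_assoc, hb', ← Matrix.mul_assoc, ha', Matrix.mul_assoc]
  inv_mem' := by
    intro a ha
    have ha' : a.1 * J (Fin n) ℂ = J (Fin n) ℂ * a.1.map (starRingEnd ℂ) := ha
    have h1 : a.1 * (a⁻¹).1 = 1 := congrArg Subtype.val (mul_inv_cancel a)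
    have h2 : (a⁻¹).1 * a.1 = 1 := congrArg Subtype.val (inv_mul_cancel a)
    have h3 : a.1.map (starRingEnd ℂ) * (a⁻¹).1.map (starRingEnd ℂ) = 1 := by
      rw [← Matrix.map_mul, h1, Matrix.map_one _ (map_zero _) (map_one _)]
    show (a⁻¹).1 * J (Fin n) ℂ = J (Fin n) ℂ * (a⁻¹).1.map (starRingEnd ℂ)
    calc (a⁻¹).1 * J (Fin n) ℂ
        = (a⁻¹).1 * (J (Fin n) ℂ * (a.1.map (starRingEnd ℂ) * (a⁻¹).1.map (starRingEnd ℂ))) := by
          rw [h3, Matrix.mul_one]
      _ = (a⁻¹).1 * (a.1 * J (Fin n) ℂ) * (a⁻¹).1.map (starRingEnd ℂ) := by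
          rw [ha']
          simp only [Matrix.mul_assoc]
      _ = ((a⁻¹).1 * a.1) * J (Fin n) ℂ * (a⁻¹).1.map (starRingEnd ℂ) := by
          simp only [Matrix.mul_assoc]
      _ = _ := by rw [h2, Matrix.one_mul]

/-- `PSL(n, ℍ)`: the quotient of `SL(n, ℍ)` by its centre. -/
abbrev PSLH (n : ℕ) : Type := SLH n ⧸ Subgroup.center (SLH n)

theorem mem_SLH {n : ℕ} {g : SpecialLinearGroup (Fin n ⊕ Fin n) ℂ} :
    g ∈ SLH n ↔ g.1 * J (Fin n) ℂ = J (Fin n) ℂ * g.1.map (starRingEnd ℂ) := Iff.rfl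

section Top

variable {n : ℕ}

/-- the matrices of the elements of `SL(n, ℍ)` -/
def val (g : SLH n) : Matrix (Fin n ⊕ Fin n) (Fin n ⊕ Fin n) ℂ := g.1.1

theorem val_mul (g h : SLH n) : val (g * h) = val g * val h := rfl

theorem val_one : val (1 : SLH n) = 1 := rfl

theorem val_inj {g h : SLH n} (e : val g = val h) : g = h := Subtype.ext (Subtype.ext e)

theorem det_val (g : SLH n) : (val g).det = 1 := g.1.2

theorem val_J (g : SLH n) : val g * J (Fin n) ℂ = J (Fin n) ℂ * (val g).map (starRingEnd ℂ) := g.2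

theorem continuous_val : Continuous (val : SLH n → Matrix (Fin n ⊕ Fin n) (Fin n ⊕ Fin n) ℂ) :=
  continuous_subtype_val.comp continuous_subtype_val

theorem isClosedEmbedding_val : IsClosedEmbedding (val : SLH n → Matrix (Fin n ⊕ Fin n) (Fin n ⊕ Fin n) ℂ) := by
  have h1 : IsClosed {A : Matrix (Fin n ⊕ Fin n) (Fin n ⊕ Fin n) ℂ | A.det = 1} :=
    isClosed_eq (by fun_prop) continuous_const
  have h2 : IsClosedEmbedding (fun A : SpecialLinearGroup (Fin n ⊕ Fin n) ℂ => (A.1 : Matrix (Fin n ⊕ Fin n) (Fin n ⊕ Fin n) ℂ)) :=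
    h1.isClosedEmbedding_subtypeVal
  have h3 : IsClosed ((SLH n : Subgroup (SpecialLinearGroup (Fin n ⊕ Fin n) ℂ)) : Set (SpecialLinearGroup (Fin n ⊕ Fin n) ℂ)) := by
    have e : ((SLH n : Subgroup (SpecialLinearGroup (Fin n ⊕ Fin n) ℂ)) : Set (SpecialLinearGroup (Fin n ⊕ Fin n) ℂ)) =
        {g | g.1 * J (Fin n) ℂ = J (Fin n) ℂ * g.1.map (starRingEnd ℂ)} := rfl
    rw [e]
    refine isClosed_eq (h2.continuous.mul continuous_const) (continuous_const.mul ?_)
    exact h2.continuous.matrix_map Complex.continuous_conj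
  exact h2.comp h3.isClosedEmbedding_subtypeVal

instance instLCH : LocallyCompactSpace (SLH n) := by
  have : LocallyCompactSpace (Matrix (Fin n ⊕ Fin n) (Fin n ⊕ Fin n) ℂ) :=
    inferInstanceAs (LocallyCompactSpace ((Fin n ⊕ Fin n) → (Fin n ⊕ Fin n) → ℂ))
  exact isClosedEmbedding_val.locallyCompactSpace

instance instSCH : SecondCountableTopology (SLH n) := by
  have : SecondCountableTopology (Matrix (Fin n ⊕ Fin n) (Fin n ⊕ Fin n) ℂ) :=
    inferInstanceAs (SecondCountableTopology ((Fin n ⊕ Fin n) → (Fin n ⊕ Fin n) → ℂ))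
  exact isClosedEmbedding_val.isEmbedding.secondCountableTopology

instance instT2H : T2Space (SLH n) := isClosedEmbedding_val.isEmbedding.t2Space

theorem isCompact_bdd (M : ℝ) : IsCompact {g : SLH n | ∀ x y, ‖val g x y‖ ≤ M} :=
  isClosedEmbedding_val.isCompact_preimage (Pool.Agent.Helper96.FR.isCompact_mat M)

theorem bdd_SLH {K : Set (SLH n)} (hK : IsCompact K) : ∃ M : ℝ, ∀ g ∈ K, ∀ x y, ‖val g x y‖ ≤ M := by
  have h1 : ∀ x y, ∃ M : ℝ, ∀ g ∈ K, ‖val g x y‖ ≤ M := by
    intro x y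
    have hc : Continuous fun g : SLH n => ‖val g x y‖ := (continuous_val.matrix_elem x y).norm
    obtain ⟨M, hM⟩ := (hK.image hc).bddAbove
    exact ⟨M, fun g hg => hM ⟨g, hg, rfl⟩⟩
  choose M hM using h1
  refine ⟨∑ x, ∑ y, |M x y|, fun g hg x y => ?_⟩
  have h2 : |M x y| ≤ ∑ y, |M x y| :=
    Finset.single_le_sum (f := fun y => |M x y|) (fun _ _ => abs_nonneg _) (Finset.mem_univ y)
  have h3 : ∑ y, |M x y| ≤ ∑ x, ∑ y, |M x y| :=
    Finset.single_le_sum (f := fun x => ∑ y, |M x y|) (fun _ _ => Finset.sum_nonneg fun _ _ => abs_nonneg _)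
      (Finset.mem_univ x)
  exact (hM x y g hg).trans ((le_abs_self _).trans (h2.trans h3))

end Top

section Centre

variable {n : ℕ}

/-- the element `diag(i, -i)` -/
noncomputable def dI (n : ℕ) : SLH n := ⟨⟨fromBlocks (Complex.I • 1) 0 0 (-(Complex.I • 1)), by
  rw [det_fromBlocks_zero₁₂, ← neg_smul, det_smul, det_smul, det_one, mul_one, mul_one, Fintype.card_fin, ← mul_pow,
    mul_neg, Complex.I_mul_I, neg_neg, one_pow]⟩, by
  rw [mem_SLH]
  show fromBlocks (Complex.I • (1 : Matrix (Fin n) (Fin n) ℂ)) 0 0 (-(Complex.I • 1)) * J (Fin n) ℂ = J (Fin n) ℂ *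
    (fromBlocks (Complex.I • (1 : Matrix (Fin n) (Fin n) ℂ)) 0 0 (-(Complex.I • 1))).map (starRingEnd ℂ)
  have e1 : (Complex.I • (1 : Matrix (Fin n) (Fin n) ℂ)).map (starRingEnd ℂ) = -(Complex.I • 1) := by
    ext i j
    simp only [map_apply, Matrix.smul_apply, one_apply, Matrix.neg_apply, smul_eq_mul, map_mul, Complex.conj_I]
    split_ifs <;> simp
  have e2 : (-(Complex.I • (1 : Matrix (Fin n) (Fin n) ℂ))).map (starRingEnd ℂ) = Complex.I • 1 := by
    ext i j
    simp only [map_apply, Matrix.smul_apply, one_apply, Matrix.neg_apply, smul_eq_mul, map_mul, map_neg, Complex.conj_I]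
    split_ifs <;> simp
  rw [fromBlocks_map, e1, e2, J, fromBlocks_multiply, fromBlocks_multiply]
  congr 1 <;> simp⟩

theorem det_J (n : ℕ) : (J (Fin n) ℂ).det = 1 := by
  have h : J (Fin n) ℂ = fromBlocks 1 (-1) 0 1 * fromBlocks 1 0 1 1 * fromBlocks 1 (-1) 0 1 := by
    rw [J, fromBlocks_multiply, fromBlocks_multiply]
    congr 1 <;> simp
  rw [h, det_mul, det_mul, det_fromBlocks_zero₂₁, det_fromBlocks_zero₁₂]
  simp

/-- the element `J` -/
noncomputable def jE (n : ℕ) : SLH n := ⟨⟨J (Fin n) ℂ, det_J n⟩, by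
  rw [mem_SLH]
  show J (Fin n) ℂ * J (Fin n) ℂ = J (Fin n) ℂ * (J (Fin n) ℂ).map (starRingEnd ℂ)
  rw [map_J]⟩

theorem map_ofReal_conj (A : Matrix (Fin n) (Fin n) ℝ) :
    (A.map (algebraMap ℝ ℂ)).map (starRingEnd ℂ) = A.map (algebraMap ℝ ℂ) := by
  ext i j
  simp

/-- the real elements `diag(A, A)` -/
noncomputable def rE (n : ℕ) : SpecialLinearGroup (Fin n) ℝ →* SLH n where
  toFun A := ⟨⟨fromBlocks (A.1.map (algebraMap ℝ ℂ)) 0 0 (A.1.map (algebraMap ℝ ℂ)), by
    have h : (A.1.map (algebraMap ℝ ℂ)).det = 1 := by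
      rw [← RingHom.mapMatrix_apply, ← RingHom.map_det, A.2, map_one]
    rw [det_fromBlocks_zero₁₂, h, mul_one]⟩, by
    rw [mem_SLH]
    show fromBlocks (A.1.map (algebraMap ℝ ℂ)) 0 0 (A.1.map (algebraMap ℝ ℂ)) * J (Fin n) ℂ = J (Fin n) ℂ *
      (fromBlocks (A.1.map (algebraMap ℝ ℂ)) 0 0 (A.1.map (algebraMap ℝ ℂ))).map (starRingEnd ℂ)
    rw [fromBlocks_map, map_ofReal_conj, J, fromBlocks_multiply, fromBlocks_multiply]
    congr 1 <;> simp⟩
  map_one' := by
    apply val_inj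
    show fromBlocks ((1 : Matrix (Fin n) (Fin n) ℝ).map (algebraMap ℝ ℂ)) 0 0
      ((1 : Matrix (Fin n) (Fin n) ℝ).map (algebraMap ℝ ℂ)) = 1
    rw [Matrix.map_one _ (map_zero _) (map_one _), fromBlocks_one]
  map_mul' A B := by
    apply val_inj
    show fromBlocks ((A.1 * B.1).map (algebraMap ℝ ℂ)) 0 0 ((A.1 * B.1).map (algebraMap ℝ ℂ)) =
      fromBlocks (A.1.map (algebraMap ℝ ℂ)) 0 0 (A.1.map (algebraMap ℝ ℂ)) *
        fromBlocks (B.1.map (algebraMap ℝ ℂ)) 0 0 (B.1.map (algebraMap ℝ ℂ))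
    rw [Matrix.map_mul, fromBlocks_multiply]
    congr 1 <;> simp

theorem val_rE (A : SpecialLinearGroup (Fin n) ℝ) :
    val (rE n A) = fromBlocks (A.1.map (algebraMap ℝ ℂ)) 0 0 (A.1.map (algebraMap ℝ ℂ)) := rfl

theorem continuous_rE : Continuous (rE n) := by
  refine Continuous.subtype_mk (Continuous.subtype_mk ?_ _) _
  have h1 : Continuous fun A : SpecialLinearGroup (Fin n) ℝ => (A.1 : Matrix (Fin n) (Fin n) ℝ) := continuous_subtype_val
  have h2 : Continuous fun A : SpecialLinearGroup (Fin n) ℝ => (A.1.map (algebraMap ℝ ℂ) : Matrix (Fin n) (Fin n) ℂ) :=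
    h1.matrix_map Complex.continuous_ofReal
  exact h2.matrix_fromBlocks continuous_const continuous_const h2

/-- The centre of `SL(n, ℍ)`. -/
theorem center_SLH {g : SLH n} (hg : g ∈ Subgroup.center (SLH n)) : val g = 1 ∨ val g = -1 := by
  have hc : ∀ h : SLH n, val h * val g = val g * val h := fun h => by
    rw [← val_mul, ← val_mul, (Subgroup.mem_center_iff.1 hg) h]
  obtain ⟨A, C, B, D, hM⟩ : ∃ A C B D, val g = fromBlocks A C B D :=
    ⟨_, _, _, _, (fromBlocks_toBlocks _).symm⟩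
  -- the element `diag(i, -i)`
  have h1 := hc (dI n)
  have e1 : val (dI n) = fromBlocks (Complex.I • 1) 0 0 (-(Complex.I • 1)) := rfl
  rw [e1, hM, fromBlocks_multiply, fromBlocks_multiply, fromBlocks_inj] at h1
  have hC : C = 0 := by
    have h2 := h1.2.1
    simp only [Matrix.zero_mul, Matrix.mul_zero, add_zero, zero_add, Matrix.mul_neg, Matrix.smul_mul, Matrix.mul_smul,
      Matrix.one_mul, Matrix.mul_one] at h2
    have h3 : (2 * Complex.I) • C = 0 := by
      rw [mul_smul, two_smul]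
      nth_rewrite 1 [h2]
      rw [neg_add_cancel]
    exact (smul_eq_zero.1 h3).resolve_left (by simp)
  have hB : B = 0 := by
    have h2 := h1.2.2.1
    simp only [Matrix.zero_mul, Matrix.mul_zero, add_zero, zero_add, Matrix.neg_mul, Matrix.smul_mul, Matrix.mul_smul,
      Matrix.one_mul, Matrix.mul_one] at h2
    have h3 : (2 * Complex.I) • B = 0 := by
      rw [mul_smul, two_smul]
      nth_rewrite 1 [← h2]
      rw [neg_add_cancel]
    exact (smul_eq_zero.1 h3).resolve_left (by simp)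
  subst hC
  subst hB
  -- the element `J`
  have h2 := hc (jE n)
  have e2 : val (jE n) = fromBlocks 0 (-1) 1 0 := rfl
  rw [e2, hM, fromBlocks_multiply, fromBlocks_multiply, fromBlocks_inj] at h2
  have hD : D = A := by
    have h3 := h2.2.2.1
    simp only [Matrix.mul_zero, add_zero, zero_add, Matrix.one_mul, Matrix.mul_one] at h3
    exact h3.symm
  subst hD
  -- real
  have h4 := val_J g
  rw [hM, fromBlocks_map, J, fromBlocks_multiply, fromBlocks_multiply, fromBlocks_inj] at h4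
  have hreal : D.map (starRingEnd ℂ) = D := by
    have h3 := h4.2.2.1
    simp only [Matrix.zero_mul, Matrix.mul_zero, add_zero, zero_add, Matrix.one_mul, Matrix.mul_one] at h3
    exact h3.symm
  -- scalar
  set R : Matrix (Fin n) (Fin n) ℝ := D.map Complex.re with hR
  have hRD : R.map (algebraMap ℝ ℂ) = D := by
    ext i j
    have h3 : (starRingEnd ℂ) (D i j) = D i j := congrFun (congrFun hreal i) j
    simp only [hR, map_apply]
    exact Complex.conj_eq_iff_re.1 h3
  have hsc : R ∈ Set.range (Matrix.scalar (Fin n)) := by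
    rw [Matrix.mem_range_scalar_iff_commute_transvectionStruct]
    intro t
    have h5 := hc (rE n ⟨t.toMatrix, by simp⟩)
    rw [val_rE, hM, fromBlocks_multiply, fromBlocks_multiply, fromBlocks_inj] at h5
    have h6 := h5.1
    simp only [Matrix.mul_zero, add_zero] at h6
    rw [← hRD, ← Matrix.map_mul, ← Matrix.map_mul] at h6
    show t.toMatrix * R = R * t.toMatrix
    ext i j
    exact Complex.ofReal_injective (congrFun (congrFun h6 i) j)
  obtain ⟨a, ha⟩ := hsc
  have hMa : val g = (a : ℂ) • 1 := by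
    rw [hM, ← hRD, ← ha]
    have h5 : ((Matrix.scalar (Fin n)) a).map (algebraMap ℝ ℂ) = (a : ℂ) • (1 : Matrix (Fin n) (Fin n) ℂ) := by
      ext i j
      simp only [map_apply, scalar_apply, diagonal_apply, Matrix.smul_apply, one_apply]
      split_ifs <;> simp
    rw [h5, ← fromBlocks_one, fromBlocks_smul, smul_zero]
  rcases Nat.eq_zero_or_pos n with hn | hn
  · subst hn
    left
    ext i
    rcases i with i | i <;> exact i.elim0
  have hdet := det_val g
  rw [hMa, det_smul, det_one, mul_one, Fintype.card_sum, Fintype.card_fin] at hdet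
  have h7 : |a| = 1 := by
    have h8 := congrArg norm hdet
    rw [norm_pow, norm_one, Complex.norm_real, Real.norm_eq_abs] at h8
    exact (pow_eq_one_iff_of_nonneg (abs_nonneg a) (by omega)).1 h8
  rcases eq_or_eq_neg_of_abs_eq h7 with h | h
  · left
    rw [hMa, h]
    simp
  · right
    rw [hMa, h]
    simp

theorem isCompact_centerH : IsCompact (Subgroup.center (SLH n) : Set (SLH n)) := by
  have h : (Subgroup.center (SLH n) : Set (SLH n)) ⊆ val ⁻¹' {1, -1} := fun g hg => center_SLH hg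
  exact (((Set.finite_singleton (-1 : Matrix (Fin n ⊕ Fin n) (Fin n ⊕ Fin n) ℂ)).insert 1).preimage
    (fun a _ b _ e => val_inj e)).subset h |>.isCompact

instance instT2P : T2Space (PSLH n) := by
  have : IsClosed (Subgroup.center (SLH n) : Set (SLH n)) := isCompact_centerH.isClosed
  have h3 : T3Space (SLH n ⧸ Subgroup.center (SLH n)) := @QuotientGroup.instT3Space _ _ _ _ _ _ this
  infer_instance

instance instLCP : LocallyCompactSpace (PSLH n) := inferInstance

instance instSCP : SecondCountableTopology (PSLH n) := inferInstance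

end Centre

end Pool.Agent.Helper96.HN
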