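import Pool.Agent.Helper43.TH.Top2

/-!
# Project TH (MP_0f6f3f_an): the singular values of quaternionic matrices come in pairs

`s_pair`: for a representation commuting with a quaternionic structure `s (2 i) = s (2 i + 1)`. `triv_quat`: hence the gaps in `T0H` are trivial.
-/

set_option autoImplicit false
set_option linter.unusedSectionVars false

open Filter Topology Matrix
open scoped ComplexConjugate

namespace Pool.Agent.Helper96.HN

open Pool.Agent.Helper84.NI Pool.Agent.Helper84.GVN Pool.Agent.Helper90.RK Pool.Agent.Helper96.RK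
open Pool.Agent.Helper9.QH Pool.Agent.Helper43.TH

/-- Antisymmetric matrices of odd size are singular. -/
theorem det_anti {m : ℕ} (hm : m % 2 = 1) (A : Matrix (Fin m) (Fin m) ℂ) (hA : Aᵀ = -A) : A.det = 0 := by
  have h1 := congrArg Matrix.det hA
  rw [det_transpose, det_neg, Fintype.card_fin, Odd.neg_one_pow (Nat.odd_iff.2 hm)] at h1
  have h2 : (2 : ℂ) * A.det = 0 := by
    rw [two_mul]
    nth_rewrite 1 [h1]
    ring
  simpa using h2

variable {G : Type} [Group G] {N : ℕ} {P : PH G N}

theorem s_pair (S : Sv P) {J : MN N} (hJ : Quat P J) (γ : G) {i j : Fin N} (hi : (i : ℕ) % 2 = 0) (hj : (j : ℕ) = i + 1) :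
    S.s γ i = S.s γ j := by
  by_contra hne
  have hij : i ≤ j := Fin.le_def.2 (by omega)
  have hlt : S.s γ j < S.s γ i := lt_of_le_of_ne (S.anti γ hij) (Ne.symm hne)
  have hz : ∀ a b : Fin N, a ≤ i → ¬ b ≤ i → mJ S J γ b a = 0 := by
    intro a b ha hb
    refine mJ_comm S hJ γ b a (ne_of_lt ?_)
    have h1 : S.s γ i ≤ S.s γ a := S.anti γ ha
    have h2 : S.s γ b ≤ S.s γ j := S.anti γ (Fin.le_def.2 (by
      have := Fin.lt_def.1 (not_le.1 hb)
      omega))
    linarith
  have hle : (i : ℕ) + 1 ≤ N := i.2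
  set f : Fin ((i : ℕ) + 1) → Fin N := Fin.castLE hle with hf
  set A : Matrix (Fin ((i : ℕ) + 1)) (Fin ((i : ℕ) + 1)) ℂ := (mJ S J γ).submatrix f f with hA
  have hanti : Aᵀ = -A := by
    rw [hA, transpose_submatrix, mJ_anti S hJ γ]
    rfl
  have hun : Aᴴ * A = 1 := by
    ext a b
    have h1 : ((mJ S J γ)ᴴ * mJ S J γ) (f a) (f b) = (1 : MN N) (f a) (f b) := by
      rw [show (mJ S J γ)ᴴ * mJ S J γ = 1 from mJ_unit S hJ γ]
    rw [Matrix.mul_apply] at h1 ⊢
    rw [one_apply] at h1 ⊢
    have h2 : (f a = f b) ↔ (a = b) := (Fin.castLE_injective hle).eq_iff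
    simp only [h2] at h1
    rw [← h1]
    symm
    rw [← Finset.sum_subset (Finset.subset_univ (Finset.univ.image f))]
    · rw [Finset.sum_image (fun x _ y _ e => Fin.castLE_injective hle e)]
      rfl
    · intro c _ hc
      have hc' : ¬ c ≤ i := by
        intro h
        refine hc (Finset.mem_image.2 ⟨⟨(c : ℕ), by have := Fin.le_def.1 h; omega⟩, Finset.mem_univ _, Fin.ext rfl⟩)
      rw [hz (f b) c (Fin.le_def.2 (by have := b.2; simp only [hf, Fin.val_castLE]; omega)) hc', mul_zero]
  have h0 := det_anti (by omega) A hanti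
  have h1 := congrArg Matrix.det hun
  rw [det_mul, h0, mul_zero, det_one] at h1
  exact zero_ne_one h1

theorem triv_quat (S : Sv P) {J : MN N} (hJ : Quat P J) : Triv S (T0H N) := by
  intro γ i hi
  rw [T0H, Finset.mem_filter] at hi
  have h1 : gp S γ i = 1 := by
    unfold gp
    split_ifs with h
    · rcases hi.2 with h2 | h2
      · rw [s_pair S hJ γ h2 (j := ⟨(i : ℕ) + 1, h⟩) rfl]
        exact div_self (S.pos _ _).ne'
      · omega
    · rfl
  unfold lg
  rw [h1, Real.log_one]

end Pool.Agent.Helper96.HN
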