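import Pool.Agent.Helper96.HN.Def
import Pool.Agent.Helper96.HN.Pair

/-!
# Project TH (MP_0f6f3f_an): discrete subgroups of `PSL(n, ℍ)` have quaternionic representations

`rep_PSLH`: proper projective representations of size `2 n` commuting with a quaternionic structure; the gaps in `T0H (2 n)` are trivial.
-/

set_option autoImplicit false
set_option linter.unusedSectionVars false

open Filter Topology Matrix
open scoped ComplexConjugate

namespace Pool.Agent.Helper96.HN

open Pool.Agent.Helper84.NI Pool.Agent.Helper84.GVN Pool.Agent.Helper90.RK Pool.Agent.Helper96.RK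
open Pool.Agent.Helper9.QH Pool.Agent.Helper43.TH Pool.Agent.Helper66.RKS

/-- the reindexing -/
def eH (n : ℕ) : Fin n ⊕ Fin n ≃ Fin (2 * n) := finSumFinEquiv.trans (finCongr (two_mul n).symm)

variable {n : ℕ}

/-- `J` as a matrix of size `2 n` -/
noncomputable def JN (n : ℕ) : MN (2 * n) := reindex (eH n) (eH n) (J (Fin n) ℂ)

theorem isU_JN : IsU (JN n) := by
  show (JN n)ᴴ * JN n = 1
  have h1 : (J (Fin n) ℂ)ᴴ = -J (Fin n) ℂ := by
    rw [J, fromBlocks_conjTranspose, fromBlocks_neg]
    congr 1 <;> simp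
  unfold JN
  rw [conjTranspose_reindex]
  simp only [reindex_apply]
  rw [submatrix_mul_equiv, h1, Matrix.neg_mul, J_squared, neg_neg, submatrix_one_equiv]

theorem JN_transpose : (JN n)ᵀ = -JN n := by
  unfold JN
  rw [transpose_reindex, J_transpose]
  simp only [reindex_apply]
  rfl

private theorem finH {G : Type} [Group G] [TopologicalSpace G] [IsTopologicalGroup G] [T2Space G] (Γ : Subgroup G)
    (h : DiscreteTopology Γ) {K : Set G} (hK : IsCompact K) : {g : Γ | (g : G) ∈ K}.Finite := by
  have hcl : IsClosed (Γ : Set G) := Subgroup.isClosed_of_discrete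
  have hemb : Topology.IsClosedEmbedding (Subtype.val : Γ → G) := hcl.isClosedEmbedding_subtypeVal
  have h1 : IsCompact ((Subtype.val : Γ → G) ⁻¹' K) := hemb.isCompact_preimage hK
  exact isCompact_iff_finite.1 h1

theorem rep_PSLH (Λ : Subgroup (PSLH n)) (h : DiscreteTopology Λ) :
    ∃ (ρ : PRep Λ (2 * n)) (J : MN (2 * n)), Quat ρ.ph J ∧ ∀ S : Sv ρ.ph, Triv S (T0H (2 * n)) := by
  have hout : ∀ x : PSLH n, ((Quotient.out x : SLH n) : PSLH n) = x := fun x => QuotientGroup.out_eq' x
  let ρ : PRep Λ (2 * n) :=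
    { ι := fun g => reindex (eH n) (eH n) (val (Quotient.out g.1 : SLH n))
      norm_det := fun g => by rw [det_reindex_self, det_val, norm_one]
      mul := fun g h => by
        obtain ⟨a, ha⟩ : ∃ a, a = (Quotient.out g.1 : SLH n) := ⟨_, rfl⟩
        obtain ⟨b, hb⟩ : ∃ b, b = (Quotient.out h.1 : SLH n) := ⟨_, rfl⟩
        obtain ⟨c, hc⟩ : ∃ c, c = (Quotient.out (g * h).1 : SLH n) := ⟨_, rfl⟩
        rw [← ha, ← hb, ← hc]
        have h1 : ((a * b : SLH n) : PSLH n) = (c : PSLH n) := by
          rw [QuotientGroup.mk_mul, ha, hb, hc, hout, hout, hout]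
          rfl
        have h2 : (a * b)⁻¹ * c ∈ Subgroup.center (SLH n) := QuotientGroup.eq.1 h1
        have h4 : c = (a * b) * ((a * b)⁻¹ * c) := by group
        have h5 : val c = (val a * val b) * val ((a * b)⁻¹ * c) := by
          rw [← val_mul, ← val_mul, ← h4]
        rcases center_SLH h2 with h3 | h3
        · refine ⟨1, norm_one, ?_⟩
          rw [one_smul, h5, h3, Matrix.mul_one]
          simp only [reindex_apply]
          rw [submatrix_mul_equiv]
        · refine ⟨-1, by rw [norm_neg, norm_one], ?_⟩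
          rw [neg_one_smul, h5, h3, Matrix.mul_neg, Matrix.mul_one]
          simp only [reindex_apply]
          rw [submatrix_mul_equiv]
          rfl
      proper := fun R => by
        have hK := (isCompact_bdd (n := n) R).image (QuotientGroup.continuous_mk (N := Subgroup.center (SLH n)))
        refine (finH Λ h hK).subset fun g hg => ?_
        refine ⟨Quotient.out g.1, fun i j => ?_, hout g.1⟩
        have h1 := hg (eH n i) (eH n j)
        rw [reindex_apply, submatrix_apply, Equiv.symm_apply_apply, Equiv.symm_apply_apply] at h1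
        exact h1 }
  have hQ : Quat ρ.ph (JN n) := by
    refine ⟨isU_JN, JN_transpose, fun g => ?_⟩
    show reindex (eH n) (eH n) (val (Quotient.out g.1 : SLH n)) * JN n =
      JN n * ((reindex (eH n) (eH n) (val (Quotient.out g.1 : SLH n)))ᴴ)ᵀ
    rw [conjTranspose_reindex, transpose_reindex]
    unfold JN
    simp only [reindex_apply]
    rw [submatrix_mul_equiv, submatrix_mul_equiv, val_J]
    rfl
  exact ⟨ρ, JN n, hQ, fun S => triv_quat S hQ⟩

/-- Lattices are discrete, so the same for lattices. -/
theorem quat_emb3 {G1 : Type} [Group G1] [TopologicalSpace G1] [IsTopologicalGroup G1] [LocallyCompactSpace G1]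
    [SecondCountableTopology G1] [T2Space G1] {Γ1 : Subgroup G1} (hL : Pool.Agent.Helper96.FR.Lattice Γ1) {n : ℕ}
    (hn : 3 ≤ n) (hT : Pool.Agent.Helper43.TA.TwoG G1 (n - 2)) (Λ : Subgroup (PSLH n)) (h : DiscreteTopology Λ)
    (E : Pool.Agent.Helper84.NI.Emb Γ1 Λ) : False := by
  obtain ⟨ρ, J, hJ, hTr⟩ := rep_PSLH Λ h
  exact quat_emb2 hL hn hT ρ hJ hTr E

end Pool.Agent.Helper96.HN
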