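import Pool.Agent.Helper96.HN.Def

/-!
# Project TH (MP_0f6f3f_an): `PSL(r + 1, ℍ)` has rank at least `r`
-/

set_option autoImplicit false
set_option linter.unusedSectionVars false

open Filter Topology Matrix

namespace Pool.Agent.Helper96.HN

open Pool.Agent.Helper96.FR

variable {r : ℕ}

/-- the block embedding `g ↦ diag(g, 1 / det g)` of `GL(r, ℝ)` in `SL(r + 1, ℝ)` and `SL(r + 1, ℍ)` -/
noncomputable def fH (r : ℕ) : GL (Fin r) ℝ →* SLH (r + 1) := (rE (r + 1)).comp (fS (𝕜 := ℝ))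

theorem val_fH (g : GL (Fin r) ℝ) (x y : Fin r) :
    val (fH r g) (Sum.inl (eS r (Sum.inl x))) (Sum.inl (eS r (Sum.inl y))) = ((g : Matrix (Fin r) (Fin r) ℝ) x y : ℂ) := by
  show val (rE (r + 1) (fS g)) _ _ = _
  rw [val_rE, fromBlocks_apply₁₁, map_apply, fS_val, bS_inl]
  rfl

theorem fH_cont : Continuous (fH r) := continuous_rE.comp fS_cont

theorem fH_bdd {K : Set (SLH (r + 1))} (hK : IsCompact K) : ∃ M : ℝ,
    ∀ g : GL (Fin r) ℝ, fH r g ∈ K → ∀ x y, |(g : Matrix (Fin r) (Fin r) ℝ) x y| ≤ M ∧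
      |((g⁻¹ : GL (Fin r) ℝ) : Matrix (Fin r) (Fin r) ℝ) x y| ≤ M := by
  obtain ⟨M, hM⟩ := bdd_SLH hK
  obtain ⟨M', hM'⟩ := bdd_SLH hK.inv
  refine ⟨max M M', fun g hg x y => ⟨?_, ?_⟩⟩
  · have h1 := hM _ hg (Sum.inl (eS r (Sum.inl x))) (Sum.inl (eS r (Sum.inl y)))
    rw [val_fH, Complex.norm_real, Real.norm_eq_abs] at h1
    exact h1.trans (le_max_left _ _)
  · have h2 : fH r g⁻¹ ∈ K⁻¹ := by
      rw [map_inv]
      exact Set.inv_mem_inv.2 hg
    have h1 := hM' _ h2 (Sum.inl (eS r (Sum.inl x))) (Sum.inl (eS r (Sum.inl y)))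
    rw [val_fH, Complex.norm_real, Real.norm_eq_abs] at h1
    exact h1.trans (le_max_right _ _)

/-- `PSL(r + 1, ℍ)` has rank at least `r`. -/
theorem rankGE_PSLH (r : ℕ) : RankGE (PSLH (r + 1)) r := by
  refine rankGE_of_GL ((QuotientGroup.mk' _).comp (fH r)) (QuotientGroup.continuous_mk.comp fH_cont)
    ((tendsto_quot _ isCompact_centerH).comp (tendsto_of_bdd fun K hK => fH_bdd hK)) fun g hg => ?_
  have h1 : fH r g ∈ Subgroup.center (SLH (r + 1)) := (QuotientGroup.eq_one_iff _).1 hg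
  rcases center_SLH h1 with h | h
  · left
    ext x y
    have h2 := val_fH g x y
    rw [h, one_apply] at h2
    simp only [Sum.inl.injEq, EmbeddingLike.apply_eq_iff_eq] at h2
    rw [one_apply]
    apply Complex.ofReal_injective
    rw [← h2]
    split_ifs <;> simp
  · right
    ext x y
    have h2 := val_fH g x y
    rw [h, Matrix.neg_apply, one_apply] at h2
    simp only [Sum.inl.injEq, EmbeddingLike.apply_eq_iff_eq] at h2
    rw [Matrix.neg_apply, one_apply]
    apply Complex.ofReal_injective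
    rw [← h2]
    split_ifs <;> simp

end Pool.Agent.Helper96.HN
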